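import Pool.Agent.H13.MA.Stmts

/-!
ACF: choice functions.
-/

set_option linter.unusedVariables false
set_option synthInstance.maxSize 100000

namespace SW

theorem ma_acf : ACFStmt := by
  intro M _ _ X
  have hx : ∀ y, E y (img (sep (pow X) (fun a => ∃ z, E z a)) (fun a => prod (sing a) a)) ↔
      ∃ a, (Sub a X ∧ ∃ z, E z a) ∧ y = prod (sing a) a := by
    intro y
    rw [mem_img]
    refine exists_congr fun a => ?_
    rw [mem_sep, mem_pow]
  obtain ⟨c, hc⟩ := ZFC.choice (img (sep (pow X) (fun a => ∃ z, E z a))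
    (fun a => prod (sing a) a)) (by
      intro y hy
      obtain ⟨a, ⟨_, z, hz⟩, rfl⟩ := (hx y).1 hy
      exact ⟨opair a z, mem_prod.2 ⟨by simp, hz⟩⟩) (by
      intro y y' z hy hy' hz hz'
      obtain ⟨a, _, rfl⟩ := (hx y).1 hy
      obtain ⟨a', _, rfl⟩ := (hx y').1 hy'
      rw [mem_prod'] at hz hz'
      obtain ⟨u, v, hu, hv, rfl⟩ := hz
      obtain ⟨u', v', hu', hv', h⟩ := hz'
      rw [mem_sing] at hu hu'
      rw [opair_inj] at h
      rw [← hu, ← hu', h.1])
  refine ⟨sep c (fun z => ∃ a b, E b a ∧ z = opair a b), fun a ha hne => ?_⟩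
  obtain ⟨z, ⟨hz, hzc⟩, hu⟩ := hc (prod (sing a) a) ((hx _).2 ⟨a, ⟨ha, hne⟩, rfl⟩)
  rw [mem_prod'] at hz
  obtain ⟨u, b, hu1, hb, rfl⟩ := hz
  rw [mem_sing] at hu1
  subst hu1
  have h1 : app (sep c (fun z => ∃ a b, E b a ∧ z = opair a b)) u = b := by
    refine the_eq (p := fun w => E (opair u w) (sep c (fun z => ∃ a b, E b a ∧ z = opair a b)))
      ?_ ?_
    · rw [mem_sep]
      exact ⟨hzc, u, b, hb, rfl⟩
    · intro w hw
      rw [mem_sep] at hw
      obtain ⟨hw, a', b', hb', h⟩ := hw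
      rw [opair_inj] at h
      obtain ⟨rfl, rfl⟩ := h
      have := hu (opair u w) (mem_prod.2 ⟨by simp, hb'⟩) hw
      rw [opair_inj] at this
      exact this.2
  rw [h1]
  exact hb

end SW
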