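import Pool.Agent.H13.MA.Stmts
import Pool.Agent.H15.SW.Val

/-!
ACX: the axiom of choice in the generic extension.
-/

set_option linter.unusedVariables false
set_option synthInstance.maxSize 100000

namespace SW

/-- choice for a family of disjoint sets whose members are all values of a function on an
ordinal -/
theorem acx_choice {N : Type} [SetStr N] [ZF N] (x a h : N) (ha : Ord a)
    (hf : ∀ b z z', E (opair b z) h → E (opair b z') h → z = z')
    (hs : ∀ y z, E y x → E z y → ∃ b, E b a ∧ E (opair b z) h)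
    (hne : ∀ y, E y x → ∃ z, E z y)
    (hd : ∀ y y' z, E y x → E y' x → E z y → E z y' → y = y') :
    ∃ c, ∀ y, E y x → ∃ z, (E z y ∧ E z c) ∧ ∀ z', E z' y → E z' c → z' = z := by
  refine ⟨sep (sUn x) (fun z => ∃ y, E y x ∧ E z y ∧ ∃ b, E b a ∧ E (opair b z) h ∧
    ∀ b', E b' b → ∀ z', E z' y → ¬ E (opair b' z') h), fun y hy => ?_⟩
  obtain ⟨z0, hz0⟩ := hne y hy
  obtain ⟨b0, hb0, hb0'⟩ := hs y z0 hy hz0
  obtain ⟨b, hb, ⟨hba, z, hz, hbz⟩, hmin, _⟩ := ord_min
    (C := fun b : N => E b a ∧ ∃ z : N, E z y ∧ E (opair b z) h) inferInstance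
    (ha.mem hb0) ⟨hb0, z0, hz0, hb0'⟩
  refine ⟨z, ⟨hz, ?_⟩, ?_⟩
  · rw [mem_sep, mem_sUn]
    refine ⟨⟨y, hy, hz⟩, y, hy, hz, b, hba, hbz, fun b' hb' z' hz' h' => ?_⟩
    exact hmin b' hb' ⟨ha.1 b hba b' hb', z', hz', h'⟩
  · intro z' hz' hz'c
    rw [mem_sep] at hz'c
    obtain ⟨_, y', hy', hzy', b', hb', hbz', hmin'⟩ := hz'c
    have := hd y' y z' hy' hy hzy' hz'
    subst this
    rcases (ha.mem hb').tri hb with h1 | h1 | h1
    · exact absurd ⟨hb', z', hz', hbz'⟩ (hmin b' h1)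
    · subst h1
      exact hf _ _ _ hbz' hbz
    · exact absurd hbz (hmin' b h1 z hz)

theorem ma_acx (hwo : WOStmt) : ACXStmt := by
  intro M _ _ _ F G hG
  haveI hz : ZF (Ext F G) := zfX hG
  refine { toZF := hz, choice := fun x hne hd => ?_ }
  obtain ⟨u, rfl⟩ : ∃ u, mk F G u = x := Quot.exists_rep x
  obtain ⟨a, f, ha, hf⟩ := hwo M (tc u)
  have hx := extF hG
  have he := embF hG
  have hh : ∀ w, E w (mk F G (img a (fun b => opair (opn F (chk F b) (app f b)) F.one))) ↔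
      ∃ b, E b a ∧ w = opair (emb F G b) (mk F G (app f b)) := by
    intro w
    rw [hx.mem_iff']
    constructor
    · rintro ⟨d, s, hds, _, rfl⟩
      rw [mem_img] at hds
      obtain ⟨b, hb, h1⟩ := hds
      rw [opair_inj] at h1
      exact ⟨b, hb, by rw [h1.1, mk_opn hG hx]; rfl⟩
    · rintro ⟨b, hb, rfl⟩
      exact ⟨opn F (chk F b) (app f b), F.one, by rw [mem_img]; exact ⟨b, hb, rfl⟩, hG.one,
        by rw [mk_opn hG hx]; rfl⟩
  refine acx_choice (mk F G u) (emb F G a)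
    (mk F G (img a (fun b => opair (opn F (chk F b) (app f b)) F.one)))
    ((traF hG).ord a ha) ?_ ?_ hne hd
  · intro b z z' h1 h2
    obtain ⟨b1, _, h1⟩ := (hh _).1 h1
    obtain ⟨b2, _, h2⟩ := (hh _).1 h2
    rw [opair_inj] at h1 h2
    have h3 : b1 = b2 := (he.inj b1 b2).1 (h1.1.symm.trans h2.1)
    rw [h1.2, h2.2, h3]
  · intro y z hy hz
    obtain ⟨d, s, hds, _, rfl⟩ := (hx.mem_iff' _ _).1 hy
    obtain ⟨d', s', hds', _, rfl⟩ := (hx.mem_iff' _ _).1 hz
    have ht : Trans (tc u) := Trans_tc u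
    have h1 : E d (tc u) := by
      have h2 : E (upair d s) (tc u) := ht _ (sub_tc u _ hds) _ (by simp [opair])
      exact ht _ h2 _ (by simp)
    have h3 : E d' (tc u) := by
      have h2 : E (upair d' s') (tc u) := ht _ (ht _ h1 _ hds') _ (by simp [opair])
      exact ht _ h2 _ (by simp)
    obtain ⟨b, hb, hbd⟩ := hf d' h3
    exact ⟨emb F G b, (he.mem _ _).2 hb, (hh _).2 ⟨b, hb, by rw [hbd]⟩⟩

end SW
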