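import Pool.Agent.H35.SW.LS
import Pool.Agent.H13.MA.TStmts

/-!
LSZ: every model of ZFC has a countable elementary submodel.
-/

set_option linter.unusedVariables false
set_option synthInstance.maxSize 100000

namespace SW

theorem ma_lsz : LSZStmt := by
  intro M _ _
  have : Nonempty M := ⟨(ZF.infinity (M := M)).choose⟩
  have hz : ZF (Hull M) := hull_zf
  refine ⟨Hull M, inferInstance, ?_, inferInstance⟩
  refine { toZF := hz, choice := fun x => ?_ }
  exact (hull_u (fun N _ (w : Fin 1 → N) => (∀ y, E y (w 0) → ∃ z, E z y) →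
    (∀ y y' z, E y (w 0) → E y' (w 0) → E z y → E z y' → y = y') →
    ∃ c, ∀ y, E y (w 0) → ∃ z, (E z y ∧ E z c) ∧ ∀ z', E z' y → E z' c → z' = z)
    inferInstance ![x]).2 (ZFC.choice _)

end SW
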